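import Pool.Agent.H46.CH.AS

/-!
# MP_64fb07_lc, board `chs_modules`: row XDn
-/

set_option autoImplicit false

namespace Pool.Agent.H79.CHE

open Classical Pool.Agent.H8.VR Pool.Agent.H69.VR Pool.Agent.H46.CH

theorem pf_XDn (hXL : T_XLn) (hXB : T_XBn) : T_XDn := by
  intro N Q L T O C _ _ _ _ _ _ V o a b a' e ha hb hj
  let _ : Fintype O := Fintype.ofFinite O
  have h1 := hXL N Q L T O C V o a 0 b a' e 0 ha hb hj (fun σ => dvd_zero _)
    (fun σ h => absurd rfl h) (fun σ τ h => absurd rfl h)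
  have h2 := hXB N Q L T O C V (V.W.S.u o) (V.rc o a' e) 0 _ h1 (fun σ h => absurd rfl h)
  rw [add_zero] at h2
  exact h2

end Pool.Agent.H79.CHE
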